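import Pool.Agent.Helper3.AK.Goals4

/-! Packet AK-BL: one level of the base. -/

set_option linter.unusedVariables false

namespace Pool.Agent.Helper3.AK

open Equiv

variable {n r k : ℕ}

/-- composition with a permutation, as an equivalence of tuples -/
def blTr (g : Perm (Fin n)) : (Fin r ↪ Fin n) ≃ (Fin r ↪ Fin n) where
  toFun a := a.trans g.toEmbedding
  invFun a := a.trans (g⁻¹ : Perm (Fin n)).toEmbedding
  left_inv a := by ext i; simp
  right_inv a := by ext i; simp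

theorem bl_ip_act (g : Perm (Fin n)) (φ ψ : Fn n r) :
    ip φ (Act g ψ) = ip (Act (g⁻¹ : Perm (Fin n)) φ) ψ := by
  unfold ip
  refine Fintype.sum_equiv (blTr g) _ _ fun a => ?_
  rw [Act_apply, Act_apply]
  have h : (blTr g a).trans (g⁻¹ : Perm (Fin n)).toEmbedding = a := by
    ext i; simp [blTr]
  rw [h]
  rfl

theorem bl_add_right (φ ψ χ : Fn n r) : ip φ (ψ + χ) = ip φ ψ + ip φ χ := by
  simp [ip, mul_add, Finset.sum_add_distrib]

theorem bl_add_left (φ ψ χ : Fn n r) : ip (φ + ψ) χ = ip φ χ + ip ψ χ := by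
  simp [ip, add_mul, Finset.sum_add_distrib]

theorem bl_smul_right (a : ℝ) (φ ψ : Fn n r) : ip φ (a • ψ) = a * ip φ ψ := by
  unfold ip
  rw [Finset.mul_sum]
  refine Finset.sum_congr rfl fun x _ => ?_
  simp only [Pi.smul_apply, smul_eq_mul]
  ring

theorem bl_smul_left (a : ℝ) (φ ψ : Fn n r) : ip (a • φ) ψ = a * ip φ ψ := by
  unfold ip
  rw [Finset.mul_sum]
  refine Finset.sum_congr rfl fun x _ => ?_
  simp only [Pi.smul_apply, smul_eq_mul]
  ring

theorem bl_sum_right {ι : Type*} (A : Finset ι) (φ : Fn n r) (ψ : ι → Fn n r) :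
    ip φ (∑ i ∈ A, ψ i) = ∑ i ∈ A, ip φ (ψ i) := by
  unfold ip
  rw [Finset.sum_comm]
  refine Finset.sum_congr rfl fun x _ => ?_
  rw [Finset.sum_apply, Finset.mul_sum]

theorem bl_sum_left {ι : Type*} (A : Finset ι) (φ : Fn n r) (ψ : ι → Fn n r) :
    ip (∑ i ∈ A, ψ i) φ = ∑ i ∈ A, ip (ψ i) φ := by
  unfold ip
  rw [Finset.sum_comm]
  refine Finset.sum_congr rfl fun x _ => ?_
  rw [Finset.sum_apply, Finset.sum_mul]

theorem bl_wk_symm (z : Fin k → Alt n) (φ ψ : Fn n r) :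
    ip φ (Wk z ψ) = ip (Wk z φ) ψ := by
  simp only [Wk, LinearMap.smul_apply, LinearMap.sum_apply, LinearMap.add_apply]
  rw [bl_smul_right, bl_smul_left, bl_sum_right, bl_sum_left]
  have h : ∀ i : Fin k, ip φ (Act (z i : Perm (Fin n)) ψ + Act ((z i : Perm (Fin n))⁻¹) ψ) =
      ip (Act (z i : Perm (Fin n)) φ + Act ((z i : Perm (Fin n))⁻¹) φ) ψ := by
    intro i
    rw [bl_add_right, bl_add_left, bl_ip_act, bl_ip_act ((z i : Perm (Fin n))⁻¹), inv_inv,
      add_comm]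
  rw [Finset.sum_congr rfl fun i _ => h i]

theorem bl_pow_symm (G : Fn n r →ₗ[ℝ] Fn n r) (hG : ∀ φ ψ, ip φ (G ψ) = ip (G φ) ψ) (q : ℕ) :
    ∀ φ ψ, ip φ ((G ^ q) ψ) = ip ((G ^ q) φ) ψ := by
  induction q with
  | zero => intro φ ψ; simp
  | succ q ih =>
    intro φ ψ
    rw [pow_succ, Module.End.mul_apply, ih, hG]
    have h2 : (G ^ q * G) φ = G ((G ^ q) φ) := by
      rw [← pow_succ, pow_succ', Module.End.mul_apply]
    rw [h2]

theorem bl_nonneg (G : Fn n r →ₗ[ℝ] Fn n r) (hG : ∀ φ ψ, ip φ (G ψ) = ip (G φ) ψ) (q : ℕ)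
    (φ : Fn n r) : 0 ≤ ip φ ((G ^ (2 * q)) φ) := by
  have h : (G ^ (2 * q)) φ = (G ^ q) ((G ^ q) φ) := by
    rw [two_mul, pow_add, Module.End.mul_apply]
  rw [h, bl_pow_symm G hG q]
  unfold ip
  exact Finset.sum_nonneg fun a _ => mul_self_nonneg _

theorem bl_card_pts : Fintype.card (Pts n r) = n.descFactorial (2 * r) := by
  rw [Fintype.card_embedding_eq]
  simp [mul_comm]

theorem bl_abs_prod (h3 : S_DDP) (c : Pts n r) (w : Perm (Fin n)) :
    |∏ i, DD c w i| ≤ 2 ^ r := by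
  rw [Finset.abs_prod]
  refine (Finset.prod_le_prod (fun i _ => abs_nonneg _) fun i _ => (h3 n r c w).2 i).trans ?_
  simp

/-- the number of coefficients below `m₀` -/
theorem bl_coef (c : ℕ → ℝ) (hc : ∀ j, 0 ≤ c j) (L m₀ : ℕ) (B : ℕ → ℝ) (M p : ℝ) (hM : 0 ≤ M)
    (hp : 0 ≤ p)
    (h1 : ∑ j ∈ Finset.range (2 * L + 1), c j = 1)
    (h2 : ∑ j ∈ Finset.range (2 * L + 1), c j * (1 / √3) ^ j ≤ (√3 / 2) ^ (2 * L))
    (hB : ∀ j, B j ≤ M) (hB2 : ∀ j, m₀ ≤ j → j ≤ 2 * L → B j ≤ M * p) :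
    ∑ j ∈ Finset.range (2 * L + 1), c j * B j ≤ M * ((√3) ^ m₀ * (3 / 4) ^ L + p) := by
  have h30 : (0 : ℝ) < √3 := by positivity
  have h31 : (1 : ℝ) ≤ √3 := by
    rw [Real.one_le_sqrt]; norm_num
  have key : ∀ j ∈ Finset.range (2 * L + 1),
      c j * B j ≤ M * ((√3) ^ m₀ * (c j * (1 / √3) ^ j)) + M * p * c j := by
    intro j hj
    have hj' : j ≤ 2 * L := by
      have := Finset.mem_range.1 hj
      omega
    by_cases hjm : m₀ ≤ j
    · have a1 : c j * B j ≤ c j * (M * p) := mul_le_mul_of_nonneg_left (hB2 j hjm hj') (hc j)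
      have a2 : 0 ≤ M * ((√3) ^ m₀ * (c j * (1 / √3) ^ j)) := by
        have := hc j
        positivity
      linarith
    · have a1 : c j * B j ≤ c j * M := mul_le_mul_of_nonneg_left (hB j) (hc j)
      have a3 : (1 : ℝ) ≤ (√3) ^ m₀ * (1 / √3) ^ j := by
        have e : (√3 : ℝ) ^ m₀ = (√3) ^ (m₀ - j) * (√3) ^ j := by
          rw [← pow_add]
          exact congrArg _ (by omega)
        rw [e, mul_assoc, ← mul_pow, mul_one_div_cancel h30.ne', one_pow, mul_one]
        exact one_le_pow₀ h31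
      have a4 : c j * M ≤ M * ((√3) ^ m₀ * (c j * (1 / √3) ^ j)) := by
        have : c j * M * 1 ≤ c j * M * ((√3) ^ m₀ * (1 / √3) ^ j) :=
          mul_le_mul_of_nonneg_left a3 (mul_nonneg (hc j) hM)
        calc c j * M = c j * M * 1 := (mul_one _).symm
          _ ≤ _ := this
          _ = _ := by ring
      have a5 : 0 ≤ M * p * c j := by
        have := hc j
        positivity
      linarith
  refine (Finset.sum_le_sum key).trans ?_
  rw [Finset.sum_add_distrib, ← Finset.mul_sum, ← Finset.mul_sum, ← Finset.mul_sum, h1, mul_one]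
  have e2 : (√3 / 2 : ℝ) ^ (2 * L) = (3 / 4) ^ L := by
    rw [pow_mul, div_pow, Real.sq_sqrt (by norm_num)]
    norm_num
  rw [e2] at h2
  have h4 : M * ((√3) ^ m₀ * ∑ j ∈ Finset.range (2 * L + 1), c j * (1 / √3) ^ j) ≤
      M * ((√3) ^ m₀ * (3 / 4) ^ L) :=
    mul_le_mul_of_nonneg_left (mul_le_mul_of_nonneg_left h2 (by positivity)) hM
  linarith

/-- **BL** (one level of the base) -/
theorem bl (h1 : S_RW) (h2 : S_TR) (h3 : S_DDP) (h4 : S_INV) : S_BL := by
  classical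
  intro n r L m₀ ε p hn hL hε hε1 hp hPM
  obtain ⟨c, hc0, hc1, hc2, hc3⟩ := h1 (2 * L)
  -- abbreviations
  set D : ℝ := ((n - r).descFactorial r : ℝ) with hD
  set A : ℝ := (Nat.card (Alt n) : ℝ) with hA
  have hA0 : 0 ≤ A := by positivity
  have hDpos : 0 < D := by
    rw [hD]
    have : 0 < (n - r).descFactorial r := Nat.descFactorial_pos.2 (by omega)
    exact_mod_cast this
  have hApos : 0 < A := by
    rw [hA]
    have : 0 < Nat.card (Alt n) := Nat.card_pos
    exact_mod_cast this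
  set E : ℝ := (n.descFactorial (2 * r) : ℝ) with hE
  have hEpos : 0 < E := by
    rw [hE]
    have : 0 < n.descFactorial (2 * r) := Nat.descFactorial_pos.2 (by omega)
    exact_mod_cast this
  let Φ : (Fin 2 → Alt n) → ℝ := fun x => ∑ c : Pts n r, ip (tst c) ((Wk x ^ (2 * L)) (tst c))
  have hΦ0 : ∀ x, 0 ≤ Φ x := fun x =>
    Finset.sum_nonneg fun c _ => bl_nonneg _ (bl_wk_symm x) L _
  have hε0 : 0 ≤ 1 - ε := by linarith
  -- bad x
  let bad : (Fin 2 → Alt n) → Prop := fun x => ∃ (f : Fn n r) (μ : ℝ), f ≠ 0 ∧ Zm f ∧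
    Wk x f = μ • f ∧ 1 - ε < μ
  have hbad : ∀ x, bad x → (4 / 9) * D * (1 - ε) ^ (2 * L) ≤ Φ x := by
    rintro x ⟨f, μ, hf, hz, hw, hμ⟩
    have := h2 n r hn (Wk x) (bl_wk_symm x) f hz hf μ hw L
    refine le_trans ?_ this
    refine mul_le_mul_of_nonneg_left ?_ (by positivity)
    exact pow_le_pow_left₀ hε0 hμ.le _
  have hcard : (Nat.card {x : Fin 2 → Alt n // bad x} : ℝ) * ((4 / 9) * D * (1 - ε) ^ (2 * L)) ≤
      ∑ x, Φ x := by
    rw [Nat.card_eq_fintype_card, Fintype.card_subtype, ← nsmul_eq_mul, ← Finset.sum_const]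
    refine (Finset.sum_le_sum fun x hx => hbad x (Finset.mem_filter.1 hx).2).trans ?_
    exact Finset.sum_le_sum_of_subset_of_nonneg (Finset.filter_subset _ _) fun x _ _ => hΦ0 x
  -- upper bound
  let B : ℕ → ℝ := fun j => ∑ x : Fin 2 → Alt n, ∑ c : Pts n r,
    ER j [] (fun w => ∏ i, DD c (pz x (gl w) j) i)
  have hsum : ∑ x, Φ x = ∑ j ∈ Finset.range (2 * L + 1), c j * B j := by
    have e1 : ∀ x : Fin 2 → Alt n, Φ x = ∑ j ∈ Finset.range (2 * L + 1), c j *
        ∑ d : Pts n r, ER j [] (fun w => ∏ i, DD d (pz x (gl w) j) i) := by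
      intro x
      simp only [Φ]
      rw [Finset.sum_congr rfl fun d _ => hc3 n r x (tst d) (tst d), Finset.sum_comm]
      refine Finset.sum_congr rfl fun j _ => ?_
      rw [← Finset.mul_sum]
      refine congrArg _ (Finset.sum_congr rfl fun d _ => ?_)
      refine congrArg _ (funext fun w => ?_)
      exact (h3 n r d _).1
    rw [Finset.sum_congr rfl fun x _ => e1 x, Finset.sum_comm]
    refine Finset.sum_congr rfl fun j _ => ?_
    rw [← Finset.mul_sum]
  have hcx : (Fintype.card (Fin 2 → Alt n) : ℝ) = A ^ 2 := by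
    rw [Fintype.card_fun, Fintype.card_fin, hA, Nat.card_eq_fintype_card]
    push_cast
    rfl
  have hcc : (Fintype.card (Pts n r) : ℝ) = E := by
    rw [bl_card_pts]
  set M : ℝ := 2 ^ r * (A ^ 2 * E) with hM
  have hM0 : 0 ≤ M := by positivity
  have hB1 : ∀ j, B j ≤ M := by
    intro j
    have a : ∀ (x : Fin 2 → Alt n) (d : Pts n r),
        ER j [] (fun w => ∏ i, DD d (pz x (gl w) j) i) ≤ 2 ^ r := by
      intro x d
      rw [← er_const j [] ((2 : ℝ) ^ r)]
      exact er_mono j [] redL_nil _ _ fun v _ _ _ => (le_abs_self _).trans (bl_abs_prod h3 d _)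
    refine (Finset.sum_le_sum fun x _ => Finset.sum_le_sum fun d _ => a x d).trans (le_of_eq ?_)
    simp only [Finset.sum_const, Finset.card_univ, nsmul_eq_mul]
    rw [hcx, hcc, hM]
    ring
  have hB2 : ∀ j, m₀ ≤ j → j ≤ 2 * L → B j ≤ M * p := by
    intro j hj0 hj
    have hpm := hPM j hj0 hj
    unfold PM at hpm
    rw [← hA, ← hE, div_le_iff₀ (by positivity)] at hpm
    -- exchange
    have e1 : B j = ∑ d : Pts n r, ER j [] (fun w => ∑ x : Fin 2 → Alt n,
        ∏ i, DD d (pz x (gl w) j) i) := by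
      simp only [B]
      rw [Finset.sum_comm]
      refine Finset.sum_congr rfl fun d _ => ?_
      rw [er_sum]
    have a : ∀ (d : Pts n r) (w : List (Letter 2)),
        ∑ x : Fin 2 → Alt n, ∏ i, DD d (pz x (gl w) j) i ≤
        2 ^ r * ∑ x : Fin 2 → Alt n, (if Mev x (fun _ => 1) (gl w) j d then (1 : ℝ) else 0) := by
      intro d w
      have hT : 2 * r * j + 2 ≤ n := by
        have : 2 * r * j ≤ 2 * r * (2 * L) := Nat.mul_le_mul_left _ hj
        omega
      have := h4 n r 2 j hT d (fun _ => 1) (gl w)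
      simp only [one_mul, zpos_one] at this
      refine (le_abs_self _).trans (this.trans (le_of_eq ?_))
      rw [Nat.card_eq_fintype_card, Fintype.card_subtype, Finset.sum_boole]
    have e2 : B j ≤ ∑ d : Pts n r, 2 ^ r * ∑ x : Fin 2 → Alt n,
        ER j [] (fun w => if Mev x (fun _ => 1) (gl w) j d then (1 : ℝ) else 0) := by
      rw [e1]
      refine Finset.sum_le_sum fun d _ => ?_
      refine (er_mono j [] redL_nil _ _ fun v _ _ _ => a d v).trans (le_of_eq ?_)
      rw [er_mul, er_sum]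
    refine e2.trans ?_
    rw [← Finset.mul_sum, Finset.sum_comm, hM, mul_assoc]
    refine mul_le_mul_of_nonneg_left ?_ (by positivity)
    calc _ ≤ p * (A ^ 2 * E) := hpm
      _ = _ := by ring
  have hup := bl_coef c hc0 L m₀ B M p hM0 hp hc1 hc2 hB1 hB2
  rw [← hsum] at hup
  have htot := hcard.trans hup
  -- divide
  have hdf : E = (n.descFactorial r : ℝ) * D := by
    rw [hE, hD, two_mul, ← Nat.cast_mul]
    congr 1
    have := Nat.descFactorial_mul_descFactorial (n := n) (k := r) (m := r + r) (by omega)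
    rw [← this, Nat.add_sub_cancel, mul_comm]
  have hnr : (n.descFactorial r : ℝ) ≤ (n : ℝ) ^ r := by
    exact_mod_cast Nat.descFactorial_le_pow n r
  set Q : ℝ := (√3) ^ m₀ * (3 / 4) ^ L + p with hQ
  have hQ0 : 0 ≤ Q := by positivity
  set C : ℝ := (Nat.card {x : Fin 2 → Alt n // bad x} : ℝ) with hC
  have f1 : C * (1 - ε) ^ (2 * L) * ((4 / 9) * D) ≤
      A ^ 2 * ((9 / 4) * (n : ℝ) ^ r * 2 ^ r * Q) * ((4 / 9) * D) := by
    calc C * (1 - ε) ^ (2 * L) * ((4 / 9) * D) = C * ((4 / 9) * D * (1 - ε) ^ (2 * L)) := by ring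
      _ ≤ M * Q := htot
      _ = (A ^ 2 * D * 2 ^ r * Q) * (n.descFactorial r : ℝ) := by rw [hM, hdf]; ring
      _ ≤ (A ^ 2 * D * 2 ^ r * Q) * (n : ℝ) ^ r := mul_le_mul_of_nonneg_left hnr (by positivity)
      _ = _ := by ring
  exact le_of_mul_le_mul_right f1 (by positivity)

end Pool.Agent.Helper3.AK
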