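import Pool.Agent.Helper6.AK.DGoals

/-! # Packet AKD-STEP -/

set_option linter.unusedSectionVars false

namespace Pool.Agent.Helper8.AK

open Finset Pool.Agent.Helper6.AK
open Equiv (Perm)

variable {n : ℕ}

/-- The indicator of `h p ∈ S`. -/
noncomputable def ind (S : Finset (Fin n)) (p : Fin n) (h : Perm (Fin n)) : ℝ :=
  if h p ∈ S then 1 else 0

theorem ind_eq (S : Finset (Fin n)) (p : Fin n) (h : Perm (Fin n)) :
    ind S p h = ∑ v ∈ S, if h p = v then (1 : ℝ) else 0 := by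
  unfold ind
  rw [sum_ite_eq]

theorem e_one (κ : Perm (Fin n) → ℝ) (S : Finset (Fin n)) (p : Fin n) :
    ∑ h, κ h * ind S p h =
      ∑ v ∈ S, ∑ h ∈ univ.filter (fun h : Perm (Fin n) => h p = v), κ h := by
  simp only [ind_eq, mul_sum]
  rw [sum_comm]
  refine sum_congr rfl fun v _ => ?_
  rw [sum_filter]
  refine sum_congr rfl fun h _ => ?_
  split_ifs <;> simp

theorem e_one_bd {κ : Perm (Fin n) → ℝ} (hκ : NU κ) (S : Finset (Fin n)) (p : Fin n) :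
    |∑ h, κ h * ind S p h - S.card * (1 / (n : ℝ))| ≤ S.card * (1 / (n : ℝ) ^ 3) := by
  rw [e_one, show (S.card : ℝ) * (1 / (n : ℝ)) = ∑ v ∈ S, (1 / (n : ℝ)) by
    rw [sum_const, nsmul_eq_mul], ← sum_sub_distrib]
  refine (abs_sum_le_sum_abs _ _).trans ?_
  rw [← nsmul_eq_mul, ← sum_const]
  exact sum_le_sum fun v _ => hκ.one p v

theorem e_two {κ : Perm (Fin n) → ℝ} (hκ : NU κ) (S : Finset (Fin n)) {p p' : Fin n}
    (hp : p ≠ p') :
    ∑ h, κ h * (ind S p h * ind S p' h) ≤ (S.card : ℝ) ^ 2 * (2 / (n : ℝ) ^ 2) := by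
  have h1 : ∑ h, κ h * (ind S p h * ind S p' h) =
      ∑ v ∈ S, ∑ v' ∈ S, ∑ h ∈ univ.filter (fun h : Perm (Fin n) => h p = v ∧ h p' = v'),
        κ h := by
    have h2 : ∀ h : Perm (Fin n), κ h * (ind S p h * ind S p' h) = ∑ v ∈ S, ∑ v' ∈ S,
        (if h p = v ∧ h p' = v' then κ h else 0) := by
      intro h
      rw [ind_eq, ind_eq, sum_mul_sum, mul_sum]
      refine sum_congr rfl fun v _ => ?_
      rw [mul_sum]
      refine sum_congr rfl fun v' _ => ?_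
      by_cases ha : h p = v <;> by_cases hb : h p' = v' <;> simp [ha, hb]
    rw [sum_congr rfl fun h _ => h2 h, sum_comm]
    refine sum_congr rfl fun v _ => ?_
    rw [sum_comm]
    refine sum_congr rfl fun v' _ => ?_
    rw [sum_filter]
  rw [h1]
  calc ∑ v ∈ S, ∑ v' ∈ S, ∑ h ∈ univ.filter (fun h : Perm (Fin n) => h p = v ∧ h p' = v'), κ h
      ≤ ∑ v ∈ S, ∑ v' ∈ S, (2 / (n : ℝ) ^ 2) :=
        sum_le_sum fun v _ => sum_le_sum fun v' _ => hκ.two p p' v v' hp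
    _ = (S.card : ℝ) ^ 2 * (2 / (n : ℝ) ^ 2) := by
        rw [sum_const, sum_const, nsmul_eq_mul, nsmul_eq_mul]
        ring

/-- The number of `p ∈ T` with `h p ∈ S`. -/
noncomputable def AA (S T : Finset (Fin n)) (h : Perm (Fin n)) : ℝ := ∑ p ∈ T, ind S p h

/-- The number of `p ∈ T` with `h p, h (f p) ∈ S`. -/
noncomputable def BB (S T : Finset (Fin n)) (f : Fin n → Fin n) (h : Perm (Fin n)) : ℝ :=
  ∑ p ∈ T, ind S p h * ind S (f p) h

theorem AA_card (S T : Finset (Fin n)) (h : Perm (Fin n)) :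
    AA S T h = ((T.filter fun p => h p ∈ S).card : ℝ) := by
  unfold AA
  rw [card_filter]
  push_cast
  rfl

theorem BB_card (S T : Finset (Fin n)) (f : Fin n → Fin n) (h : Perm (Fin n)) :
    BB S T f h = ((T.filter fun p => h p ∈ S ∧ h (f p) ∈ S).card : ℝ) := by
  unfold BB
  rw [card_filter]
  push_cast
  refine sum_congr rfl fun p _ => ?_
  unfold ind
  by_cases ha : h p ∈ S
  · by_cases hb : h (f p) ∈ S
    · rw [if_pos ha, if_pos hb, if_pos ⟨ha, hb⟩, one_mul]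
    · rw [if_pos ha, if_neg hb, if_neg (fun hh => hb (And.right hh)), mul_zero]
  · rw [if_neg ha, if_neg (fun hh => ha (And.left hh)), zero_mul]

theorem mean_A {κ : Perm (Fin n) → ℝ} (hκ : NU κ) (S T : Finset (Fin n)) (hn : 0 < (n : ℝ)) :
    |∑ h, κ h * AA S T h - S.card * T.card / n| ≤ S.card * T.card / n / (n : ℝ) ^ 2 := by
  have eA : ∑ h, κ h * AA S T h = ∑ p ∈ T, ∑ h, κ h * ind S p h := by
    rw [sum_comm]
    exact sum_congr rfl fun h _ => mul_sum _ _ _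
  have e1 : (S.card * T.card / n : ℝ) = ∑ p ∈ T, (S.card : ℝ) * (1 / (n : ℝ)) := by
    rw [sum_const, nsmul_eq_mul]
    ring
  have e2 : (S.card * T.card / n / (n : ℝ) ^ 2 : ℝ) =
      ∑ p ∈ T, (S.card : ℝ) * (1 / (n : ℝ) ^ 3) := by
    rw [sum_const, nsmul_eq_mul]
    field_simp
  rw [eA, e2]
  nth_rewrite 1 [e1]
  rw [← sum_sub_distrib]
  exact (abs_sum_le_sum_abs _ _).trans (sum_le_sum fun p _ => e_one_bd hκ S p)

theorem mean_A2 {κ : Perm (Fin n) → ℝ} (hκ : NU κ) (S T : Finset (Fin n)) (hn : 0 < (n : ℝ)) :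
    ∑ h, κ h * AA S T h ^ 2 ≤ ∑ h, κ h * AA S T h + 2 * (S.card * T.card / n : ℝ) ^ 2 := by
  have eA : ∑ h, κ h * AA S T h = ∑ p ∈ T, ∑ h, κ h * ind S p h := by
    rw [sum_comm]
    exact sum_congr rfl fun h _ => mul_sum _ _ _
  have e1 : ∑ h, κ h * AA S T h ^ 2 =
      ∑ p ∈ T, ∑ p' ∈ T, ∑ h, κ h * (ind S p h * ind S p' h) := by
    have e2 : ∀ h, κ h * AA S T h ^ 2 = ∑ p ∈ T, ∑ p' ∈ T, κ h * (ind S p h * ind S p' h) := by
      intro h
      unfold AA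
      rw [sq, sum_mul_sum, mul_sum]
      exact sum_congr rfl fun p _ => mul_sum _ _ _
    rw [sum_congr rfl fun h _ => e2 h, sum_comm]
    refine sum_congr rfl fun p _ => ?_
    rw [sum_comm]
  rw [e1]
  have hc : 0 ≤ (S.card : ℝ) ^ 2 * (2 / (n : ℝ) ^ 2) := by positivity
  have e3 : ∀ p ∈ T, ∑ p' ∈ T, ∑ h, κ h * (ind S p h * ind S p' h) ≤
      ∑ h, κ h * ind S p h + T.card * ((S.card : ℝ) ^ 2 * (2 / (n : ℝ) ^ 2)) := by
    intro p hp
    rw [← add_sum_erase _ _ hp]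
    refine add_le_add (le_of_eq ?_) ?_
    · refine sum_congr rfl fun h _ => ?_
      unfold ind
      by_cases ha : h p ∈ S
      · rw [if_pos ha, one_mul]
      · rw [if_neg ha, zero_mul]
    · calc ∑ p' ∈ T.erase p, ∑ h, κ h * (ind S p h * ind S p' h)
          ≤ ∑ p' ∈ T.erase p, ((S.card : ℝ) ^ 2 * (2 / (n : ℝ) ^ 2)) :=
            sum_le_sum fun p' hp' => e_two hκ S (ne_of_mem_erase hp').symm
        _ ≤ ∑ p' ∈ T, ((S.card : ℝ) ^ 2 * (2 / (n : ℝ) ^ 2)) :=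
            sum_le_sum_of_subset_of_nonneg (erase_subset _ _) fun _ _ _ => hc
        _ = T.card * ((S.card : ℝ) ^ 2 * (2 / (n : ℝ) ^ 2)) := by rw [sum_const, nsmul_eq_mul]
  refine (sum_le_sum e3).trans ?_
  rw [sum_add_distrib, ← eA, sum_const, nsmul_eq_mul]
  have e4 : (T.card : ℝ) * (T.card * ((S.card : ℝ) ^ 2 * (2 / (n : ℝ) ^ 2))) =
      2 * (S.card * T.card / n : ℝ) ^ 2 := by
    field_simp
  rw [e4]

theorem mean_B {κ : Perm (Fin n) → ℝ} (hκ : NU κ) (S T : Finset (Fin n)) (f : Fin n → Fin n)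
    (hf : ∀ p ∈ T, p ≠ f p) (hn : 0 < (n : ℝ)) :
    ∑ h, κ h * BB S T f h ≤ 2 * (S.card * T.card / n : ℝ) * (S.card / n) := by
  have e1 : ∑ h, κ h * BB S T f h = ∑ p ∈ T, ∑ h, κ h * (ind S p h * ind S (f p) h) := by
    rw [sum_comm]
    exact sum_congr rfl fun h _ => mul_sum _ _ _
  rw [e1]
  have e2 : ∀ p ∈ T, ∑ h, κ h * (ind S p h * ind S (f p) h) ≤
      (S.card : ℝ) ^ 2 * (2 / (n : ℝ) ^ 2) := fun p hp => e_two hκ S (hf p hp)
  refine (sum_le_sum e2).trans (le_of_eq ?_)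
  rw [sum_const, nsmul_eq_mul]
  field_simp

/-- The choice of `h`. -/
theorem choice {κ : Perm (Fin n) → ℝ} (hκ : NU κ) (A B : Perm (Fin n) → ℝ) {μ : ℝ} (hμ : 1 ≤ μ)
    (hA0 : ∀ h, 0 ≤ A h) (hB0 : ∀ h, 0 ≤ B h)
    (hE1 : 99 / 100 * μ ≤ ∑ h, κ h * A h) (hE1' : ∑ h, κ h * A h ≤ 101 / 100 * μ)
    (hE2 : ∑ h, κ h * A h ^ 2 ≤ ∑ h, κ h * A h + 2 * μ ^ 2)
    (hE3 : ∑ h, κ h * B h ≤ 2 * μ * (1 / 320)) :
    ∃ h, κ h ≠ 0 ∧ μ / 4 ≤ A h ∧ A h ≤ 40 * μ ∧ B h ≤ μ / 8 := by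
  have hmean : μ ^ 2 / 4 < ∑ h, κ h * (μ * A h - 1 / 10 * A h ^ 2 - 18 * μ * B h) := by
    have e1 : ∑ h, κ h * (μ * A h - 1 / 10 * A h ^ 2 - 18 * μ * B h) =
        μ * ∑ h, κ h * A h - 1 / 10 * ∑ h, κ h * A h ^ 2 - 18 * μ * ∑ h, κ h * B h := by
      rw [mul_sum, mul_sum, mul_sum, ← sum_sub_distrib, ← sum_sub_distrib]
      exact sum_congr rfl fun h _ => by ring
    rw [e1]
    have e2 : μ * (99 / 100 * μ) ≤ μ * ∑ h, κ h * A h :=
      mul_le_mul_of_nonneg_left hE1 (by linarith)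
    have e3 : 18 * μ * ∑ h, κ h * B h ≤ 18 * μ * (2 * μ * (1 / 320)) :=
      mul_le_mul_of_nonneg_left hE3 (by linarith)
    nlinarith
  have hex : ∃ h, κ h ≠ 0 ∧ μ ^ 2 / 4 < μ * A h - 1 / 10 * A h ^ 2 - 18 * μ * B h := by
    by_contra hcon
    push Not at hcon
    have e1 : ∑ h, κ h * (μ * A h - 1 / 10 * A h ^ 2 - 18 * μ * B h) ≤
        ∑ h, κ h * (μ ^ 2 / 4) := by
      refine sum_le_sum fun h _ => ?_
      by_cases hk : κ h = 0
      · rw [hk, zero_mul, zero_mul]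
      · exact mul_le_mul_of_nonneg_left (hcon h hk) (hκ.nonneg h)
    rw [← sum_mul, hκ.sum, one_mul] at e1
    linarith
  obtain ⟨h, hk, hF⟩ := hex
  have hA0 := hA0 h
  have hB0 := hB0 h
  refine ⟨h, hk, ?_⟩
  obtain ⟨a, ha⟩ : ∃ a, a = A h := ⟨_, rfl⟩
  obtain ⟨y, hy⟩ : ∃ y, y = B h := ⟨_, rfl⟩
  rw [← ha, ← hy] at hF
  rw [← ha] at hA0
  rw [← hy] at hB0
  rw [← ha, ← hy]
  have hμB : 0 ≤ μ * y := mul_nonneg (by linarith) hB0
  have hμ0 : 0 < μ := by linarith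
  have ha2 := sq_nonneg a
  refine ⟨?_, ?_, ?_⟩
  · by_contra hc
    push Not at hc
    have : μ * a < μ * (μ / 4) := mul_lt_mul_of_pos_left hc hμ0
    nlinarith
  · by_contra hc
    push Not at hc
    have : 40 * μ * a ≤ a * a := mul_le_mul_of_nonneg_right hc.le hA0
    nlinarith
  · by_contra hc
    push Not at hc
    have : μ * (μ / 8) < μ * y := mul_lt_mul_of_pos_left hc hμ0
    nlinarith [sq_nonneg (a - 5 * μ)]

theorem thm (hcoms : Pool.Agent.Helper6.AK.S_COMS) : Pool.Agent.Helper6.AK.S_STEP := by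
  intro n hn κ hκ c c₀ h1 h2
  have hn0 : (0 : ℝ) < n := by
    have : 0 < n := by omega
    exact_mod_cast this
  have hn10 : (10 : ℝ) ≤ n := by exact_mod_cast hn
  have h1' : (n : ℝ) ≤ c.support.card * c₀.support.card := by exact_mod_cast h1
  have h2' : 320 * (c.support.card : ℝ) ≤ n := by exact_mod_cast h2
  have hmA := mean_A hκ c.support c₀.support hn0
  have hmA2 := mean_A2 hκ c.support c₀.support hn0
  have hf : ∀ p ∈ c₀.support, p ≠ c₀⁻¹ p := by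
    intro p hp h
    have h3 : c₀ p = p := by
      conv_lhs => rw [h]
      rw [← Equiv.Perm.mul_apply, mul_inv_cancel, Equiv.Perm.one_apply]
    exact Equiv.Perm.mem_support.1 hp h3
  have hmB := mean_B hκ c.support c₀.support (fun p => c₀⁻¹ p) hf hn0
  have hmm : (c.support.card : ℝ) * c₀.support.card =
      (c.support.card * c₀.support.card / n : ℝ) * n := by field_simp
  have hμ1 : 1 ≤ (c.support.card * c₀.support.card / n : ℝ) := (one_le_div hn0).2 h1'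
  have hmn : (c.support.card : ℝ) / n ≤ 1 / 320 := by
    rw [div_le_div_iff₀ hn0 (by norm_num)]
    linarith
  obtain ⟨μ, hμ⟩ : ∃ μ, μ = (c.support.card * c₀.support.card / n : ℝ) := ⟨_, rfl⟩
  rw [← hμ] at hmA hmA2 hmB hmm hμ1
  have hn2 : μ / (n : ℝ) ^ 2 ≤ μ / 100 := by
    apply div_le_div_of_nonneg_left (by linarith) (by norm_num)
    nlinarith
  have hE1 : 99 / 100 * μ ≤ ∑ h, κ h * AA c.support c₀.support h := by
    have := (abs_le.1 hmA).1
    linarith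
  have hE1' : ∑ h, κ h * AA c.support c₀.support h ≤ 101 / 100 * μ := by
    have := (abs_le.1 hmA).2
    linarith
  obtain ⟨h, hk, k1, k2, k3⟩ := choice hκ _ _ hμ1
    (fun h => by rw [AA_card]; exact Nat.cast_nonneg _)
    (fun h => by rw [BB_card]; exact Nat.cast_nonneg _) hE1 hE1' hmA2
    (hmB.trans (mul_le_mul_of_nonneg_left hmn (by linarith)))
  rw [AA_card] at k1 k2
  rw [BB_card] at k3
  obtain ⟨q1, q2⟩ := hcoms c c₀ h
  obtain ⟨s, hs⟩ : ∃ s, s = (c * (h * c₀ * h⁻¹) * c⁻¹ * (h * c₀ * h⁻¹)⁻¹).support.card := ⟨_, rfl⟩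
  rw [← hs] at q1 q2
  have q1' : (s : ℝ) ≤ 3 * ((c₀.support.filter fun p => h p ∈ c.support).card : ℝ) := by
    exact_mod_cast q1
  have q2' : ((c₀.support.filter fun p => h p ∈ c.support).card : ℝ) ≤ s +
      ((c₀.support.filter fun p => h p ∈ c.support ∧ h (c₀⁻¹ p) ∈ c.support).card : ℝ) := by
    exact_mod_cast q2
  refine ⟨h, hk, ?_, ?_⟩
  · rw [← hs]
    have k4 : (c.support.card : ℝ) * c₀.support.card ≤ 8 * n * (s : ℝ) := by
      rw [hmm]
      have : μ ≤ 8 * s := by linarith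
      calc μ * n ≤ 8 * s * n := mul_le_mul_of_nonneg_right this hn0.le
        _ = 8 * n * (s : ℝ) := by ring
    exact_mod_cast k4
  · rw [← hs]
    have k4 : (n : ℝ) * s ≤ 120 * (c.support.card * c₀.support.card) := by
      rw [hmm]
      have : (s : ℝ) ≤ 120 * μ := by linarith
      calc (n : ℝ) * s ≤ n * (120 * μ) := mul_le_mul_of_nonneg_left this hn0.le
        _ = 120 * (μ * n) := by ring
    exact_mod_cast k4

end Pool.Agent.Helper8.AK
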